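import Mathlib
import Pool.Agent.Helper25.FM.Pow
import Pool.Agent.DPL.Fam

/-!
# The Tauberian Tate conjecture on average in every algebraic family of varieties

Let `R` be an order in a number field `k`, with basis `b` over `ℤ` (or any commutative ring which is
free of rank `d` over `ℤ`). A family of projective varieties `V_a`, `a` in `R ^ n`, is given by
polynomials `h i` (forms in the second group of variables) with coefficients in `R` in `n` parameters
and `N` projective coordinates. The primes of degree one of `R` are the kernels of the homomorphisms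
`φ` from `R` to the fields `F_p = ZMod p`; the reduction of `V_a` is the fibre over the point `φ(a)` of
`F_p ^ n`. Let `P p φ` be sets of good (smooth) fibres, and for `v` in `P p φ` let `β p φ v` be the trace
of Frobenius on the second cohomology group of the fibre over `v`; by the trace formula and the
theorem of Deligne it is the sum of the Frobenius eigenvalues of absolute value `p` in the formula
for the numbers of points over all extensions of `F_p`, see `TraceH2`; `M` is a bound for the second
Betti numbers. All constants depend only on `d`, `n` and `M` (and `κ`, `δ`), not on the ring, the family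
or the dimension and the degree of the varieties; the weights `w p φ` are arbitrary with absolute
value at most one. `dist b w P β T a` is the distance between the average of the Tauberian Tate
conjecture for `V_a` at `T` and the average of the means of the traces over all good fibres, and
`height a` is the largest absolute value of a coordinate of `a`.

`result`: let `κ ≥ 0`, `δ > 0` and `2 κ + δ < 1`. All `a` with coordinates in `[-B, B]`, but a proportion
`C κ δ B ^ (- δ ^ 2 / 60)`, satisfy `dist ≤ T ^ (- κ)` for all `T` with
`(log H) ^ (1 / (1 - 2 κ - δ)) ≤ T ≤ H ^ ((1 - δ) / (1 + 2 κ))` at once, where `H` is the height of `a`.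
(With `κ` close to `0` this is the range from `(log H) ^ (1 + ε)` to `H ^ (1 - ε)`, with `κ` close to
`1 / 2` it is the range from a power of the logarithm to `H ^ (1 / 2 - ε)` with an error which is nearly
the square root of `1 / T`. For `T < c log H` with a small `c > 0` it is false: by the Chinese remainder
theorem the reductions modulo all primes up to `T` can be prescribed.)

Relation to the conjecture. By Deligne's equidistribution theorem the mean of the traces of the
smooth fibres divided by `p` is up to `O(1 / √p)` the trace of Frobenius on the invariants of the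
geometric monodromy in `H²(V_η)(1)`, which come from the second cohomology group of the
(compactified) total space. If they are algebraic, e. g. if `h^(2, 0) = 0` for the total space, then
the average of the means tends to `rank NS(V_η)`, and this is `rank NS(V_a / k)` for 100 percent of the
`a` (Terasoma, André, Hilbert irreducibility). The primes of degree two or more contribute
`O(1 / √T)`.

The last clause of the theorem is an instance in which nothing is assumed: the family of all double
planes `y ^ 2 = e z ^ s + g (x₀, x₁)` for an even `s ≥ 2`, with the `s + 2` parameters `e` and the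
coefficients of the binary form `g`, and the sets of all smooth fibres (`goodFibres`). Here the
traces are the numbers of points minus `p ^ 2 + 1` (`fibreTrace`), they are at most `M p` with an `M`
depending only on `s`, by the method of Stepanov, and their means are `p` up to an error of at
most `4`, so that the averages of the means differ from those of the projective plane by
`O(log T / T)`. For `s = 6` the fibres are K3 surfaces.

Proof. Let `f_p(a)` be the sum over `φ` of the trace divided by `p` minus its mean.

* The box has a majorant (a product of Fejer kernels modulo `8 B H`, `H` a multiple of all primes up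
  to `K`) with frequencies in `[-H, H] ^ J`. The functions `f_p` have frequencies of exact order `p`.
* Large sieve: a frequency of prime order at most `K ≤ B` has at most `2 + K ^ 2 / (4 B)`
  neighbours (frequencies of prime order at most `K` whose difference to it is in `[-H, H] ^ J`):
  in one coordinate they are fractions with different denominators, with distances at least
  `1 / K ^ 2`, and the denominator determines the other coordinates. So the second moment of
  `∑ c_p f_p` on the box is at most `8 ^ J (2 + K ^ 2 / (4 B)) ∑ c_p ^ 2 sup |f_p| ^ 2`.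
* The maximal inequality of Rademacher and Menshov gives the result for all `T` larger than a small
  power of `B` at once.
* If `K ^ (2 k) ≤ B` the weight does not see products of `2 k` functions `f_p`, and the `2 k`-th moment is
  that of a sum of independent variables (Hoeffding): `dist > ε` has proportion at most
  `2 8 ^ J (C k (log T) ^ 2 / (ε ^ 2 T)) ^ k`. This gives the other `T`; all but a proportion
  `2 / √B` of the vectors have height at least `√B`.
-/

set_option autoImplicit false

namespace Pool.Agent.Results.MP_4589ac_nt.Families

open MvPolynomial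
open Pool.Agent.Helper25.FM Pool.Agent.LRP
open Pool.Agent.DPL (goodFibres fibreTrace)

/-- **Main theorem.** In every family of projective varieties over an affine space over a number
field, the average of the Tauberian Tate conjecture is for almost all members close to the average
of the means of the traces over all fibres: outside a thin set up to `T ^ (-κ)` for all `T` between a
power of the logarithm of the height of the parameter and a power of the height. In particular,
with no hypothesis on the points and with means `p + O(1)`, for the family of all double planes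
`y ^ 2 = e z ^ s + g (x₀, x₁)`. -/
theorem result (d n M : ℕ) :
    (∃ C : ℝ → ℝ → ℝ, ∀ {R : Type} [CommRing R] (b : Module.Basis (Fin d) ℤ R) {N c : ℕ}
      (h : Fin c → MvPolynomial (Fin n ⊕ Fin N) R)
      (P : ∀ p : ℕ, (R →+* ZMod p) → Set (Fin n → ZMod p))
      (β : ∀ p : ℕ, (R →+* ZMod p) → (Fin n → ZMod p) → ℝ)
      (_ : ∀ (p : ℕ) [Fact p.Prime] (φ : R →+* ZMod p), ∀ v ∈ P p φ,
        TraceH2 p (points h φ v) M (β p φ v))
      (w : ∀ p : ℕ, (R →+* ZMod p) → ℝ) (_ : ∀ p φ, |w p φ| ≤ 1)
      (κ δ : ℝ) (B : ℕ), 0 ≤ κ → 0 < δ → 2 * κ + δ < 1 →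
        share n d B (fun a => ∃ T : ℕ, Real.log (height a) ^ (1 / (1 - 2 * κ - δ)) ≤ T ∧
          (T : ℝ) ≤ (height a : ℝ) ^ ((1 - δ) / (1 + 2 * κ)) ∧
          (T : ℝ) ^ (-κ) < dist b w P β T a) ≤ C κ δ * (B : ℝ) ^ (-(δ ^ 2 / 60))) ∧
    ∀ s : ℕ, 2 ≤ s → Even s →
    (∀ p : ℕ, p.Prime → ¬ p ∣ 2 * s → |mean (goodFibres s p) (fibreTrace s p) - p| ≤ 4) ∧
    ∃ C : ℝ → ℝ → ℝ, ∀ {R : Type} [CommRing R] (b : Module.Basis (Fin d) ℤ R)
      (w : ∀ p : ℕ, (R →+* ZMod p) → ℝ) (_ : ∀ p φ, |w p φ| ≤ 1)
      (κ δ : ℝ) (B : ℕ), 0 ≤ κ → 0 < δ → 2 * κ + δ < 1 →
        share (s + 2) d B (fun a => ∃ T : ℕ, Real.log (height a) ^ (1 / (1 - 2 * κ - δ)) ≤ T ∧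
          (T : ℝ) ≤ (height a : ℝ) ^ ((1 - δ) / (1 + 2 * κ)) ∧
          (T : ℝ) ^ (-κ) < dist b w (fun p _ => goodFibres s p) (fun p _ => fibreTrace s p) T a) ≤
          C κ δ * (B : ℝ) ^ (-(δ ^ 2 / 60)) := by
  refine ⟨?_, fun s hs _ => ⟨fun p hp h => ?_, Pool.Agent.DPL.family d s hs⟩⟩
  · have h4 : ∀ κ δ : ℝ, ∃ C' : ℝ, 0 ≤ κ → 0 < δ → 2 * κ + δ < 1 →
        ∀ {R : Type} [CommRing R] (b : Module.Basis (Fin d) ℤ R)
        {w : ∀ p : ℕ, (R →+* ZMod p) → ℝ} (_ : ∀ p φ, |w p φ| ≤ 1)
        {P : ∀ p : ℕ, (R →+* ZMod p) → Set (Fin n → ZMod p)}
        {β : ∀ p : ℕ, (R →+* ZMod p) → (Fin n → ZMod p) → ℝ}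
        (_ : ∀ (p : ℕ) (_ : p.Prime) (φ : R →+* ZMod p), ∀ v ∈ P p φ, |β p φ v| ≤ M * p) (B : ℕ),
        share n d B (fun a => ∃ T : ℕ, Real.log (height a) ^ (1 / (1 - 2 * κ - δ)) ≤ T ∧
          (T : ℝ) ≤ (height a : ℝ) ^ ((1 - δ) / (1 + 2 * κ)) ∧
          (T : ℝ) ^ (-κ) < dist b w P β T a) ≤
          C' * (B : ℝ) ^ (-(δ ^ 2 / 60)) := by
      intro κ δ
      by_cases h : 0 ≤ κ ∧ 0 < δ ∧ 2 * κ + δ < 1
      · obtain ⟨C', hC'⟩ := main4 d n M κ δ h.1 h.2.1 h.2.2
        exact ⟨C', fun _ _ _ => hC'⟩
      · exact ⟨0, fun h1 h2 h3 => absurd ⟨h1, h2, h3⟩ h⟩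
    choose C hC using h4
    refine ⟨C, ?_⟩
    intro R _ b N c h P β hβ w hw κ δ B h1 h2 h3
    refine hC κ δ h1 h2 h3 b hw (fun p hp φ v hv => ?_) B
    have : Fact p.Prime := ⟨hp⟩
    exact trace_abs (Nat.cast_nonneg p) (hβ p φ v hv)
  · have : Fact p.Prime := ⟨hp⟩
    exact Pool.Agent.DPL.mean_close s hs p h

end Pool.Agent.Results.MP_4589ac_nt.Families
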