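import Mathlib
import Pool.Agent.Helper29.LP.Height
import Pool.Agent.DPL.PThree

/-!
# The Tauberian Tate conjecture for almost all surfaces in linear systems on threefolds, in ranges
# which are large powers of the height, with power savings

Let `R` be an order in a number field `k`: a domain with a basis `b` over `ℤ` and an embedding `ψ`
in `ℂ`. Let `W` be a projective scheme of dimension three over `R`, defined by the forms `h i` in
projective space of dimension `r + 3`, and let `Z` be its intersection with the zeros of forms
`g i` of degree `e`. For a vector `a` with entries in `R` let `F = ∑ a (i, m) x ^ m g i` (`m` runs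
over the exponent vectors of degree `s ≥ 1`) and let `V = W ∩ {F = 0}`, a surface which contains
`Z`. Assume that one of the surfaces is smooth over `ℂ`, that `#W(F_p) = p ^ 3 + O(p ^ 2)` and that
`#Z(F_p) = O(p)`, for all primes of degree one of `R`; these are the kernels of the homomorphisms
`φ` from `R` to the fields `F_p = ZMod p`.

`result`: for every `κ < 1 / 2` there is `c > 0` such that the average in the Tauberian Tate
conjecture for `V` (over the primes of degree one and of good reduction up to `T`) is the average of
`(#W(F_p) - p ^ 3 - p) / p ^ 2 + #Z(F_p) / p` up to `T ^ (- κ)`, for all `T ≥ T₀` in the range at once,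
for all `a` with coordinates in `[-B, B]` outside a proportion `C T₀ ^ (- c)`. If the traces are at
most `C₀ p` (Deligne) then, for every `α > 1 / (1 - 2 κ)`, this holds for all
`T ≥ (log (height a)) ^ α` in the range, with `height a`, the largest absolute value of the
coordinates of `a`, in the place of `B`, outside a proportion `C B ^ (- c)`.

The range consists of all `T ≤ √B` and of all `T < (8 B / s) ^ (m / 2)` for which `m` is admissible
(`LongRange`). For surfaces in projective space (`r = 0`, `W = P^3`) the number `m = 2` is admissible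
for `s ≥ 4`, `m = 3` for `s ≥ 7`, `m = 4` for `s ≥ 9`, `m = 5` for `s ≥ 12`, and in general `m` is about
`3 s / 8`, so that the range contains all `T ≤ B ^ (3 s / 16 - o(s))`: for quartic surfaces (K3
surfaces) all `T < 2 B`. In general `m` is about `2 s (r + 3) / (r + 4) ^ 2`. The same holds with
arbitrary weights `w p φ` bounded by one, with constants which do not depend on them. For
comparison: for `T = (log (height a)) ^ α` the Riemann hypothesis for the `L`-function of a single
surface gives an error of about `log (height a) / √T = T ^ (- (1 / 2 - 1 / α))` (up to logarithms),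
for `α > 2`, and in the second part `κ` is any number below `1 / 2 - 1 / (2 α)`, for every `α > 1`.

If `W` is smooth and its first Betti number is zero then the first summand is, by Deligne, the
trace of Frobenius on the second cohomology group of `W` divided by `p`, up to `O(1 / √p)`, and
the average of the second is the number of curves in `Z` (irreducible over `k`), in the limit. So
the right hand side is the average of the conjecture for `W` plus the number of the curves; the
rank of the Neron-Severi group of `V` is the rank for `W` plus the number of the curves for almost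
all `V` (Noether-Lefschetz). The primes of degree two or more contribute `O(log T / √T)`.

In the last clause of the theorem nothing is assumed: it is the instance of the first one in which
`W` is the projective space of dimension three, `Z` is empty and `V` runs over all surfaces of degree
`s ≥ 1`; the expected value is `1 + 1 / p ^ 2`, so that the averages are compared with that of the
number of primes of degree one, which tends to `1`.

Proof. Let `f_φ(a)` be the number of points of `V` minus its expected value, divided by `p`, that
is `1 / p` times the sum over the points `x` of `W` outside of `Z` modulo the prime of the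
difference of the indicator function of `F(x) = 0` and `1 / p`.

* The box has a majorant, a product of Fejer kernels modulo `M`, where `M` is a large multiple of
  all primes up to `T`, whose Fourier coefficients have only small frequencies, at most `H` with
  `M = 8 B H`. If `T ≤ √B` the conditions modulo two primes `p ≤ T` and `q ≤ T` are exactly
  independent. If `T` is at most a small power of `B` the same is true for the conditions modulo
  `k` primes, `T ^ (2 k) ≤ B`, and the moments of order about `log B / log T` give the second part.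
* If `T > √B` the mean of `f_φ f_φ'` over the majorant is a sum over pairs of points `x` modulo `p`
  and `y` modulo `q`, and only the exceptional pairs contribute, those for which there are `λ` and
  `μ`, not both zero, such that all numbers `λ x ^ m g i (x) / p + μ y ^ m g i (y) / q` are at most
  `H / M = 1 / (8 B)` modulo one. For two homogeneous coordinates this gives a sequence of `s + 1`
  small numbers, `z_j = λ t ^ j / p + μ u ^ j / q` modulo one, where `t` and `u` are the ratios of the
  coordinates. By the pigeonhole principle `z` satisfies a linear recurrence of length at most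
  `m - 1` with integral coefficients. Let `G` be the primitive one of minimal degree. Counting the
  polynomials with small coefficients of degree at most `s + 1 - deg G` in two ways, with the
  theorem of Mahler on the height of the factors of an integral polynomial, shows that the height
  of `G` is small (`LL.key2`). As `t` and `u` are roots of `G`, there are at most
  `O((p q) ^ (1 / (2 (r + 3))))` pairs `(t, u)`, so at most `O(√(p q))` exceptional pairs `(x, y)`,
  which is the expected size of the second moment.
* The proportion of the bad reductions: by the Nullstellensatz the equations of the singular points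
  of a smooth surface generate all forms of a large degree, and this gives a square matrix with
  entries affine in `a`, which is a nonzero integer multiple of the identity at the smooth surface,
  and is singular if the surface is. The norm of its determinant is a polynomial in the
  coordinates of `a`, which is not zero outside a proportion `O(1 / B)` of the box (Schwartz and
  Zippel), and the logarithm of its value is `O(log B)`, so that only `O(1)` primes of bad reduction
  are larger than `√B`; their contribution is bounded in mean square.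
* The maximal inequality of Rademacher and Menshov gives the result for all `T` at once.
-/

set_option autoImplicit false

namespace Pool.Agent.Results.MP_4589ac_nt.LongRangeLefschetz

open MvPolynomial
open Pool.Agent.Helper29.LN Pool.Agent.Helper29.LG Pool.Agent.Helper29.LP

/-- **Main theorem.** For almost all surfaces in a linear system on a threefold `W` with base
locus `Z` over a number field, the average in the Tauberian Tate conjecture is the expected one
(that of `W` plus the average of `#Z(F_p) / p`) up to an error of at most `T ^ (- κ)`, for all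
weights bounded by one and for all `T ≥ T₀` up to the square root of the height `B` and in the long
range, up to `(8 B / s) ^ (m / 2)`, at once, outside a proportion `C T₀ ^ (- c)`; and, if the traces
are at most `C₀ p`, for all `T ≥ (log (height a)) ^ α`, with `height a` in the place of `B` in the
range, outside a proportion `C B ^ (- c)`. In particular, with nothing assumed, for all surfaces of
degree `s` in projective space. -/
theorem result {R : Type} [CommRing R] [IsDomain R] {d : ℕ} (b : Module.Basis (Fin d) ℤ R)
    (ψ : R →+* ℂ) (hψ : Function.Injective ψ) :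
    (∀ {r c k s e : ℕ}
      (h : Fin c → MvPolynomial (Fin (r + 4)) R) (g : Fin k → MvPolynomial (Fin (r + 4)) R)
      (δ : Fin c → ℕ) (_ : ∀ i, (h i).IsHomogeneous (δ i)) (_ : ∀ i, (g i).IsHomogeneous e)
      (_ : 1 ≤ s) (C₀ : ℝ)
      (_ : ∀ p : ℕ, p.Prime → ∀ φ : R →+* ZMod p,
        |points φ (Set.range h) - (p : ℝ) ^ 3| ≤ C₀ * (p : ℝ) ^ 2)
      (_ : ∀ p : ℕ, p.Prime → ∀ φ : R →+* ZMod p,
        points φ (Set.range h ∪ Set.range g) ≤ C₀ * p)
      (_ : ∃ a : Fin k × Mono (r + 4) s → R, SmoothSection ψ h (form g a))
      (κ : ℝ) (_ : 0 ≤ κ) (_ : κ < 1 / 2),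
      (∃ C c' : ℝ, 0 < c' ∧
        ∀ w : ∀ p : ℕ, (R →+* ZMod p) → ℝ, (∀ p φ, |w p φ| ≤ 1) →
        ∀ T₀ B : ℕ, 2 ≤ T₀ →
        share B (fun a : Vec r k s d => ∃ T : ℕ, T₀ ≤ T ∧ (T ^ 2 ≤ B ∨ LongRange r s B T) ∧
          (T : ℝ) ^ (-κ) < dev b w T h g a) ≤ C * (T₀ : ℝ) ^ (-c')) ∧
      ((∀ p : ℕ, p.Prime → ∀ (φ : R →+* ZMod p) (a : Fin k × Mono (r + 4) s → R),
          Good φ h (form g a) → |trace φ h (form g a)| ≤ C₀ * p) →
        ∀ α : ℝ, 1 / (1 - 2 * κ) < α → ∃ C c' : ℝ, 0 < c' ∧
        ∀ w : ∀ p : ℕ, (R →+* ZMod p) → ℝ, (∀ p φ, |w p φ| ≤ 1) →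
        ∀ B : ℕ, 1 ≤ B →
        share B (fun a : Vec r k s d => ∃ T : ℕ, Real.log (height a) ^ α ≤ T ∧
          (T ^ 2 ≤ height a ∨ LongRange r s (height a) T) ∧
          (T : ℝ) ^ (-κ) < dev b w T h g a) ≤ C * (B : ℝ) ^ (-c'))) ∧
    ∀ s : ℕ, 1 ≤ s → ∀ κ : ℝ, 0 ≤ κ → κ < 1 / 2 → ∃ C c' : ℝ, 0 < c' ∧
      ∀ w : ∀ p : ℕ, (R →+* ZMod p) → ℝ, (∀ p φ, |w p φ| ≤ 1) →
      ∀ T₀ B : ℕ, 2 ≤ T₀ →
      share B (fun a : Vec 0 1 s d => ∃ T : ℕ, T₀ ≤ T ∧ (T ^ 2 ≤ B ∨ LongRange 0 s B T) ∧
        (T : ℝ) ^ (-κ) < dev b w T ![] (fun _ => 1) a) ≤ C * (T₀ : ℝ) ^ (-c') := by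
  have main : ∀ {r c k s e : ℕ}
      (h : Fin c → MvPolynomial (Fin (r + 4)) R) (g : Fin k → MvPolynomial (Fin (r + 4)) R)
      (δ : Fin c → ℕ) (_ : ∀ i, (h i).IsHomogeneous (δ i)) (_ : ∀ i, (g i).IsHomogeneous e)
      (_ : 1 ≤ s) (C₀ : ℝ)
      (_ : ∀ p : ℕ, p.Prime → ∀ φ : R →+* ZMod p,
        |points φ (Set.range h) - (p : ℝ) ^ 3| ≤ C₀ * (p : ℝ) ^ 2)
      (_ : ∀ p : ℕ, p.Prime → ∀ φ : R →+* ZMod p,
        points φ (Set.range h ∪ Set.range g) ≤ C₀ * p)
      (_ : ∃ a : Fin k × Mono (r + 4) s → R, SmoothSection ψ h (form g a))
      (κ : ℝ) (_ : 0 ≤ κ) (_ : κ < 1 / 2),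
      (∃ C c' : ℝ, 0 < c' ∧
        ∀ w : ∀ p : ℕ, (R →+* ZMod p) → ℝ, (∀ p φ, |w p φ| ≤ 1) →
        ∀ T₀ B : ℕ, 2 ≤ T₀ →
        share B (fun a : Vec r k s d => ∃ T : ℕ, T₀ ≤ T ∧ (T ^ 2 ≤ B ∨ LongRange r s B T) ∧
          (T : ℝ) ^ (-κ) < dev b w T h g a) ≤ C * (T₀ : ℝ) ^ (-c')) ∧
      ((∀ p : ℕ, p.Prime → ∀ (φ : R →+* ZMod p) (a : Fin k × Mono (r + 4) s → R),
          Good φ h (form g a) → |trace φ h (form g a)| ≤ C₀ * p) →
        ∀ α : ℝ, 1 / (1 - 2 * κ) < α → ∃ C c' : ℝ, 0 < c' ∧
        ∀ w : ∀ p : ℕ, (R →+* ZMod p) → ℝ, (∀ p φ, |w p φ| ≤ 1) →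
        ∀ B : ℕ, 1 ≤ B →
        share B (fun a : Vec r k s d => ∃ T : ℕ, Real.log (height a) ^ α ≤ T ∧
          (T ^ 2 ≤ height a ∨ LongRange r s (height a) T) ∧
          (T : ℝ) ^ (-κ) < dev b w T h g a) ≤ C * (B : ℝ) ^ (-c')) := by
    intro r c k s e h g δ hh hg hs C₀ hW hZ hV κ hκ0 hκ
    obtain ⟨a₀, ha₀⟩ := hV
    have hW' : ∀ p : ℕ, p.Prime → ∀ φ : R →+* ZMod p,
        |points φ (Set.range h) - (p : ℝ) ^ 3| ≤ |C₀| * (p : ℝ) ^ 2 := fun p hp φ =>
      (hW p hp φ).trans (mul_le_mul_of_nonneg_right (le_abs_self _) (by positivity))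
    have hZ' : ∀ p : ℕ, p.Prime → ∀ φ : R →+* ZMod p,
        points φ (Set.range h ∪ Set.range g) ≤ |C₀| * p := fun p hp φ =>
      (hZ p hp φ).trans (mul_le_mul_of_nonneg_right (le_abs_self _) (by positivity))
    refine ⟨?_, fun hD α hα => ?_⟩
    · obtain ⟨C, c', -, hc', hC⟩ := all2 b hh hg hs (abs_nonneg C₀) hW' hZ' hψ ha₀ hκ0 hκ
      exact ⟨C, c', hc', fun w hw T₀ B hT₀ => share_le (hC w hw T₀ B hT₀)⟩
    · obtain ⟨C, c', hc', hC⟩ := all4 b hh hg hs (abs_nonneg C₀) hW' hZ' hψ ha₀
        (fun p hp φ a ha => (hD p hp φ a ha).trans
          (mul_le_mul_of_nonneg_right (le_abs_self _) (Nat.cast_nonneg _))) hκ0 hκ hα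
      exact ⟨C, c', hc', fun w hw B hB => share_le (hC w hw B hB)⟩
  refine ⟨fun h g δ hh hg hs C₀ hW hZ hV κ hκ0 hκ => main h g δ hh hg hs C₀ hW hZ hV κ hκ0 hκ,
    fun s hs κ hκ0 hκ => ?_⟩
  exact (main ![] (fun _ => 1) ![] (fun i => i.elim0) (fun _ => isHomogeneous_one _ _) hs 3
    (fun p hp φ => Pool.Agent.DPL.points_space_le p hp φ)
    (fun p hp φ => by rw [Pool.Agent.DPL.points_empty p hp φ]; positivity)
    ⟨_, Pool.Agent.DPL.smooth_fermat ψ hs⟩ κ hκ0 hκ).1

end Pool.Agent.Results.MP_4589ac_nt.LongRangeLefschetz
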