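import Mathlib
import Pool.Agent.Helper76.DIL.Main
import Pool.Agent.DPL.Abs

/-!
# The Tauberian Tate conjecture up to `ε` for a single variety, for `T` to infinity

Let `R` be an order in a number field `k` of degree `d` (a ring with a basis over `ℤ`; the theorem
holds for all such rings), let `W` be a projective variety over `R` of any dimension, defined by the
forms `h i`, and let `V₁` be the double cover `y ^ 2 = f (x)`, `x` in `W`, for a form `f` of even degree.
Let `a i`, `u i`, `v i` be integers (`i` in `Fin m`) such that the `2 m` integers `a i` and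
`c i = u i ^ 2 - a i * v i ^ 2` are independent modulo squares (`Indep`), let
`K = k(√a₁, …, √aₘ)` and let `V_δ` be the quadratic twist `y ^ 2 = δ f (x)` of `V₁` over `K`, where
`δ` is the product of the `u i + v i √(a i)`.

The primes of degree one of a ring `S` are the kernels of the homomorphisms `φ` from `S` to the
fields `F_p = ZMod p`. Let `P` be a set of primes of `R` (for example those of good reduction of `W`
and `V₁`), and let `βW`, `βV` and `βD` be the traces of Frobenius on the second cohomology groups of
`W` and `V₁` at the primes of `P` and of `V_δ` at the primes of `R[√a₁, …, √aₘ]` above those of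
`P`: by the trace formula and the theorem of Deligne they are the sums of the Frobenius eigenvalues
of weight two in the formula for the numbers of points over all extensions of `F_p`, see `TraceH2`;
they are determined by it. The finitely many `p` which divide `badNumber a u v`, twice the product
of the `a i` and `c i`, are left out. Let `M` be a bound for the second Betti numbers, and let
`D p` be a bound for the differences of the traces of `V₁` and `W`; by Deligne one may take
`D = b₂(V₁) - b₂(W)`.

`result`: for all `m` and `B ≠ 0` there are such integers `a i > |B|` and `c i > 0` prime to `B`. For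
all `a`, `u`, `v`, `d`, `D` and `ε > 0` there is a `T₀` such that for ALL orders `R` of rank `d`, all `W`,
`f`, `P` and `M` and ALL `T ≥ T₀` the average of the Tauberian Tate conjecture for the single variety
`V_δ` over `K` differs from that for `W` over `K` by at most `d D / 2 ^ m + ε`.

So if the conjecture holds for `W` over `K`, for example if `W` is the projective plane (all double
planes; `d D = 21` for all K3 surfaces of degree two over `ℚ`), then the left side of the conjecture
for `V_δ` is at every large `T` within `d D / 2 ^ m + ε` of `rank NS(W / K)`, and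
`rank NS(V_δ / K) = rank NS(W / K)` if `2 ^ m > D` and the `2 m` integers are prime to twice the
discriminant of `k`: the representation of the Galois group of `k` induced from the character of
`K(√δ) / K` is then irreducible of dimension `2 ^ m`, and does not occur in the minus part of the
Neron-Severi group. For `m` to infinity the bound tends to `0`; there is no exceptional set, `T₀` does
not depend on `V₁`, and nothing is assumed on the transcendental part of the cohomology of `V₁`
(which need not be automorphic).

The last clause of the theorem is an instance in which nothing is assumed: the double planes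
`V_δ : y ^ 2 = δ (e z ^ s + g (x₀, x₁))` over `K`, where `s ≥ 2` is even, `e` is in `R`, `g` is any
binary form of degree `s` over `R` and `P` consists of the primes of good reduction: those `φ` for
which `p` does not divide `2 s`, `φ e` is not zero and the form `φ g` is squarefree. Here the traces
are the numbers of points minus `p ^ 2 + 1`, the traces of the projective plane are `p`, and the
bound `D` for the differences, which depends only on `s`, is proved by the method of Stepanov. For
`R = ℤ` and a smooth branch curve the averages for the projective plane tend to `1`, by the prime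
number theorem for arithmetic progressions, so that those for `V_δ` are for all large `T` within
`D / 2 ^ m + ε` of `1`. For `s = 6` the `V_δ` are K3 surfaces.

Proof. The minus part of the trace of `V_δ` at `φ` is `(φ(δ)/p)` times that of `V₁` at the prime
below, because both are determined by the numbers of points. The sum of the symbols `(φ(δ)/p)` over
all `φ` above a given prime is the product over `i` of the sums of the two symbols of
`u i ± v i √(a i)`, whose product is `(c i / p)`: it vanishes unless all the `a i` and `c i` are
squares modulo `p`, when it is `± 2 ^ m`. These primes have density `4 ^ (-m)`, by the prime number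
theorem for arithmetic progressions. (The character of the induced representation is zero outside
the centre of an extraspecial group of order `2 ^ (2 m + 1)`; the mean of its absolute value is
`2 ^ (-m)`, the least possible value for an irreducible character of degree `2 ^ m`.)
-/

set_option autoImplicit false

namespace Pool.Agent.Results.MP_4589ac_nt.MultiquadraticTwists

open MvPolynomial Pool.Agent.Helper76.DIL
open Pool.Agent.Helper25.FM (TraceH2)
open Pool.Agent.DPL (planeForm goodPrimes planeTrace)

/-- `βW`, `βV` and `βD` are the traces of Frobenius on the second cohomology groups of `W` and of the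
double cover `V₁ : y ^ 2 = f (x)` at the primes of `P` and of the twist `V_δ : y ^ 2 = δ f (x)` at the
primes of `R[√a₁, …, √aₘ]` above them, the second Betti numbers are at most `M`, and the traces of
`V₁` and `W` differ by at most `D p`. -/
def Traces {R : Type} [CommRing R] {m : ℕ} (a u v : Fin m → ℤ) {N c : ℕ}
    (h : Fin c → MvPolynomial (Fin N) R) (f : MvPolynomial (Fin N) R)
    (P : ∀ p : ℕ, Set (R →+* ZMod p)) (M : ℕ) (D : ℝ) (βW βV : ∀ p : ℕ, (R →+* ZMod p) → ℝ)
    (βD : ∀ p : ℕ, (Roots R a →+* ZMod p) → ℝ) : Prop :=
  ∀ (p : ℕ) [Fact p.Prime], ¬ (p : ℤ) ∣ badNumber a u v →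
    (∀ φ ∈ P p, TraceH2 p (points φ h) M (βW p φ)) ∧
    (∀ φ ∈ P p, TraceH2 p (coverPoints φ h 1 f) M (βV p φ)) ∧
    (∀ φ ∈ P p, |βV p φ - βW p φ| ≤ D * p) ∧
    ∀ φ ∈ above a P p, TraceH2 p (coverPoints φ (fun i => map (incl R a) (h i))
      (delta R a u v) (map (incl R a) f)) M (βD p φ)

/-- The average of the conjecture for the double plane `V_δ : y ^ 2 = δ (e z ^ s + g (x₀, x₁))` over
`R[√a₁, …, √aₘ]`, over the primes of good reduction; the trace is the number of points minus
`p ^ 2 + 1`. -/
noncomputable def planeAverage {R : Type} [CommRing R] {m : ℕ} (a u v : Fin m → ℤ) (s : ℕ) (e : R)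
    (g : Polynomial R) (T : ℕ) : ℝ :=
  average (above a (goodPrimes s e g)) (badNumber a u v)
    (planeTrace (C (delta R a u v) * map (incl R a) (planeForm s e g))) T

/-- The average for the projective plane over the same primes: the traces are `p`. -/
noncomputable def baseAverage {R : Type} [CommRing R] {m : ℕ} (a u v : Fin m → ℤ) (s : ℕ) (e : R)
    (g : Polynomial R) (T : ℕ) : ℝ :=
  average (above a (goodPrimes s e g)) (badNumber a u v) (fun p _ => (p : ℝ)) T

/-- The branch curve `e z ^ s + g (x₀, x₁) = 0` over `ℚ` is smooth. -/
def SmoothCurve (s : ℕ) (e : ℤ) (g : Polynomial ℤ) : Prop :=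
  e ≠ 0 ∧ Squarefree (g.map (Int.castRingHom ℚ)) ∧ g.natDegree ≤ s ∧ s ≤ g.natDegree + 1

/-- **Main theorem.** For the single twist `V_δ` over `K` the averages of the Tauberian Tate
conjecture are for all large `T` within `d D / 2 ^ m + ε` of those for `W` over `K`, uniformly in
everything but `a`, `u`, `v`, `d`, `D` and `ε`. In particular, with no hypothesis on the points and
with a `D` which depends only on `s`, for the double planes `y ^ 2 = δ (e z ^ s + g (x₀, x₁))`; over
`ℤ[√a₁, …, √aₘ]` the average is for all large `T` within `D / 2 ^ m + ε` of `1`. -/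
theorem result :
    (∀ m : ℕ, (∀ B : ℤ, B ≠ 0 → ∃ a u v : Fin m → ℤ, (∀ i, |B| < a i ∧ IsCoprime (a i) B) ∧
      (∀ i, 0 < norms a u v i ∧ IsCoprime (norms a u v i) B) ∧ Indep a (norms a u v)) ∧
    ∀ a u v : Fin m → ℤ, Indep a (norms a u v) →
    ∀ (d : ℕ) (D : ℝ), 0 ≤ D → ∀ ε : ℝ, 0 < ε → ∃ T₀ : ℕ,
    ∀ (R : Type) [CommRing R] (_b : Module.Basis (Fin d) ℤ R) (N c : ℕ)
      (h : Fin c → MvPolynomial (Fin N) R) (f : MvPolynomial (Fin N) R)
      (P : ∀ p : ℕ, Set (R →+* ZMod p)) (M : ℕ) (βW βV : ∀ p : ℕ, (R →+* ZMod p) → ℝ)
      (βD : ∀ p : ℕ, (Roots R a →+* ZMod p) → ℝ), Traces a u v h f P M D βW βV βD →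
      ∀ T : ℕ, T₀ ≤ T →
        |average (above a P) (badNumber a u v) βD T -
          average (above a P) (badNumber a u v) (restrict a βW) T| ≤ d * D / 2 ^ m + ε) ∧
    ∀ s : ℕ, 2 ≤ s → Even s → ∃ D : ℝ, 0 ≤ D ∧ ∀ m : ℕ,
    ∀ a u v : Fin m → ℤ, Indep a (norms a u v) →
    (∀ (d : ℕ) (ε : ℝ), 0 < ε → ∃ T₀ : ℕ,
    ∀ (R : Type) [CommRing R] (_b : Module.Basis (Fin d) ℤ R) (e : R) (g : Polynomial R),
      g.natDegree ≤ s → ∀ T : ℕ, T₀ ≤ T →
        |planeAverage a u v s e g T - baseAverage a u v s e g T| ≤ d * D / 2 ^ m + ε) ∧
    ∀ (e : ℤ) (g : Polynomial ℤ), SmoothCurve s e g → ∀ ε : ℝ, 0 < ε → ∃ T₁ : ℕ,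
      ∀ T : ℕ, T₁ ≤ T → |planeAverage a u v s e g T - 1| ≤ D / 2 ^ m + ε := by
  refine ⟨fun m => ⟨?_, ?_⟩, ?_⟩
  · intro B hB
    obtain ⟨a, u, h1, h2, h3⟩ := Pool.Agent.Helper65.DIL.exists_indep' m B hB
    refine ⟨a, u, fun _ => 1, h1, ?_⟩
    have h4 : norms a u (fun _ => 1) = fun i => u i ^ 2 - a i := by
      funext i
      unfold norms
      ring
    rw [h4]
    exact ⟨h2, h3⟩
  · intro a u v hI d D hD ε hε
    obtain ⟨T₀, hT₀⟩ := close a u v hI d D hD ε hε
    refine ⟨T₀, ?_⟩
    intro R _ b N c h f P M βW βV βD hβ T hT
    exact hT₀ R b P βW βV βD (fun p hp hbad => by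
      obtain ⟨hW, hV, hDp, hD⟩ := hβ p hbad
      exact ⟨hDp, rel_of_points a u v h f P βW βV βD hbad hW hV hD⟩) T hT
  · intro s hs _
    obtain ⟨D, hD, H⟩ := Pool.Agent.DPL.planes s hs
    exact ⟨D, hD, fun m a u v hI => ⟨(H m a u v hI).1, fun e g hg =>
      (H m a u v hI).2 e g hg.1 hg.2.1 hg.2.2.1 hg.2.2.2⟩⟩

end Pool.Agent.Results.MP_4589ac_nt.MultiquadraticTwists
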