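import Mathlib
import Pool.Agent.Helper29.UT.GeoOwn
import Pool.Agent.DPL.Bounds

/-!
# The Tauberian Tate conjecture for almost all quadratic twists, at all scales at once

Let `R` be an order in a number field `k` of degree `d`: a ring with a basis over `ℤ` (the theorem
holds for all such rings). Let `W` be a projective surface over `R`, defined by the forms `h i`,
let `f` be a form of even degree, and for a squarefree integer `a` let `V_a` be the double cover
`a y ^ 2 = f (x)` of `W`, a quadratic twist of `V_1`. Let `P` be a set of primes of degree one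
(homomorphisms `φ` from `R` to `F_p = ZMod p`) with `|#V_1(F_p) - #W(F_p)| ≤ M p` and
`|#W(F_p) - p ^ 2 - 1| ≤ M₁ p` (`Bounds`); for example the primes of good reduction.

Let `D_a(T) = dev P h f a T` be the difference of the averages of the Tauberian Tate conjecture up
to `T` for `V_a` and for `W`, over the primes of `P`. `result`: let `0 ≤ u < 1 / 2`,
`α > 1 / (1 - 2 u)`, `0 ≤ v ≤ 1 / 14`, `γ ≥ 0` and `γ + 3 v < 1`. Then for all but `C A ^ (1 - c)` of
the squarefree integers `a` with `|a| ≤ A` (`c > 0`)
* `|D_a(T)| ≤ T ^ (- u)` for ALL `T` with `(log |a|) ^ α ≤ T ≤ √|a|` and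
* `|D_a(T)| ≤ |a| ^ (- v)` for ALL `T` with `√|a| ≤ T ≤ exp (|a| ^ γ)`.
The constants `C` and `c` depend only on `d`, `M`, `M₁` and `u`, `v`, `α`, `γ`, and not on `R`, `W`, `f`
and `P`. With `v` close to zero the range is `T ≤ exp (|a| ^ (1 - δ))`.

If `V_1` and `W` are smooth with first Betti number zero then the trace of Frobenius on the second
cohomology group is the number of points minus `p ^ 2 + 1` for the primes of good reduction, and
the hypotheses hold with `M = b_2(V_1) - b_2(W)` and `M₁ = b_2(W)` by Deligne. The rank of the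
Neron-Severi group of `V_a` over `k` is that of `W` for all but at most `d M` of the `a`. Assume that the
conjecture holds for `W`, for example that `W` is the projective plane (double planes, for example
all K3 surfaces of degree two). Then the averages for `V_a` agree with those for `W` up to a
power of `1 / T` and of `1 / |a|` for almost all `a` and all `T` between a power of `log |a|` with
exponent close to one and `exp (|a| ^ (1 - δ))`; the Riemann hypothesis would give
`T ≥ (log |a|) ^ (2 + δ)`.

The last clause of the theorem is an instance in which nothing is assumed: the double planes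
`V_a : a y ^ 2 = e z ^ s + g (x₀, x₁)`, where `s ≥ 2` is even, `e` is in `R`, `g` is any binary form of
degree `s` over `R` and `P` consists of the primes of good reduction: those `φ` for which `p` does not
divide `2 s`, `φ e` is not zero and the form `φ g` is squarefree. The bounds for the numbers of
points are proved, by the method of Stepanov, with `M` depending only on `s`. For `s = 6` the `V_a`
are K3 surfaces.

Proof. `D_a(T) = S_a(T) / T` up to the terms of the primes dividing `2 a`, where `S_a(T)` is the sum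
over `p ≤ T` of `(a/p) c_p log p` with `|c_p| ≤ d M`. For `T` up to a small power of `|a|` we use the
`2 k`-th moment over `a` with `T ^ (2 k)` about `A`, for `T ≤ √A` the second moment over
`a` and the maximal inequality of Rademacher and Menshov; for `√A ≤ T ≤ A ^ 16` the twelfth moment
of `S_a(T)`; for `T ≥ A ^ 16` the Bessel inequality for the characters `(a/p)` with the weight of
the Selberg sieve, with which they are almost orthogonal. The passage from a grid of `T` to all `T`
uses an upper bound for the number of primes in short intervals, again by the Selberg sieve.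
-/

set_option autoImplicit false

namespace Pool.Agent.Results.MP_4589ac_nt.TwistsAllScales

open MvPolynomial
open Pool.Agent.Helper29.QT Pool.Agent.Helper29.UT
open Pool.Agent.DPL (planeForm goodPrimes)

/-- **Main theorem.** For almost all quadratic twists `V_a : a y ^ 2 = f (x)`, `x` in `W`, the averages
of the Tauberian Tate conjecture are close to that for `W` at all scales at once. In particular, with
no hypothesis on the points, for the double planes `V_a : a y ^ 2 = e z ^ s + g (x₀, x₁)`. -/
theorem result (d : ℕ) (M M₁ : ℝ) (hM0 : 0 ≤ M) (hM₁0 : 0 ≤ M₁) (u v α γ : ℝ) (hu0 : 0 ≤ u)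
    (hu : u < 1 / 2) (hα : 1 / (1 - 2 * u) < α) (hv0 : 0 ≤ v) (hv : v ≤ 1 / 14) (hγ0 : 0 ≤ γ)
    (hγ : γ + 3 * v < 1) :
    (∃ C c' : ℝ, 0 < c' ∧
    ∀ (R : Type) [CommRing R] (_b : Module.Basis (Fin d) ℤ R) (P : ∀ p : ℕ, Set (R →+* ZMod p))
      (n c : ℕ) (h : Fin c → MvPolynomial (Fin n) R) (f : MvPolynomial (Fin n) R),
      Bounds P h f M M₁ → ∀ A : ℕ, 1 ≤ A →
        (number A (fun a => ∃ T : ℕ,
          (Real.log |(a : ℝ)| ^ α ≤ T ∧ (T : ℝ) ^ 2 ≤ |(a : ℝ)| ∧
            (T : ℝ) ^ (-u) < |dev P h f a T|) ∨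
          (|(a : ℝ)| ≤ (T : ℝ) ^ 2 ∧ (T : ℝ) ≤ Real.exp (|(a : ℝ)| ^ γ) ∧
            |(a : ℝ)| ^ (-v) < |dev P h f a T|)) : ℝ) ≤ C * (A : ℝ) ^ (1 - c')) ∧
    ∀ s : ℕ, 2 ≤ s → Even s → ∃ C c' : ℝ, 0 < c' ∧
    ∀ (R : Type) [CommRing R] (_b : Module.Basis (Fin d) ℤ R) (e : R) (g : Polynomial R),
      g.natDegree ≤ s → ∀ A : ℕ, 1 ≤ A →
        (number A (fun a => ∃ T : ℕ,
          (Real.log |(a : ℝ)| ^ α ≤ T ∧ (T : ℝ) ^ 2 ≤ |(a : ℝ)| ∧
            (T : ℝ) ^ (-u) < |dev (goodPrimes s e g) ![] (planeForm s e g) a T|) ∨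
          (|(a : ℝ)| ≤ (T : ℝ) ^ 2 ∧ (T : ℝ) ≤ Real.exp (|(a : ℝ)| ^ γ) ∧
            |(a : ℝ)| ^ (-v) < |dev (goodPrimes s e g) ![] (planeForm s e g) a T|)) : ℝ) ≤
          C * (A : ℝ) ^ (1 - c') := by
  refine ⟨?_, ?_⟩
  · obtain ⟨C, c', H⟩ := own d hM0 hM₁0 u v α γ
    exact ⟨C, c', H hu0 hu hα hv0 hv hγ0 hγ⟩
  · intro s hs _
    obtain ⟨K, hK0, hK⟩ := Pool.Agent.DPL.bounds s hs
    obtain ⟨C, c', H⟩ := own d hK0 zero_le_one u v α γ
    obtain ⟨hc', H⟩ := H hu0 hu hα hv0 hv hγ0 hγ
    exact ⟨C, c', hc', fun R _ b e g hg A hA => H R b _ _ _ _ _ (hK R e g hg) A hA⟩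

end Pool.Agent.Results.MP_4589ac_nt.TwistsAllScales
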